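import Mathlib

/-!
# A connected graph whose leaf number is at most the second smallest degree plus one is traceable
-/

set_option autoImplicit false

namespace Pool.Agent.Results.MP_95a718_co.TraceableLeaf

open Finset

universe u

variable {V : Type u}

/-! ### Definitions of the problem -/

/-- The degree of `v` in `G`. -/
noncomputable def deg (G : SimpleGraph V) (v : V) : ℕ := {w | G.Adj v w}.ncard

/-- The largest number of vertices of degree one of a spanning tree of `G`. -/
noncomputable def leafNumber (G : SimpleGraph V) : ℕ :=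
  sSup {m | ∃ T : SimpleGraph V, T ≤ G ∧ T.IsTree ∧ {v | deg T v = 1}.ncard = m}

/-- The second smallest degree, counted with multiplicity. -/
noncomputable def secondMinDegree [Fintype V] (G : SimpleGraph V) : ℕ :=
  (((univ : Finset V).val.map (deg G)).sort (· ≤ ·)).getD 1 0

/-- `l` lists the vertices of a Hamiltonian path of `G`. -/
def IsHamPath (G : SimpleGraph V) (l : List V) : Prop :=
  l.Nodup ∧ l.IsChain G.Adj ∧ ∀ v, v ∈ l

/-! ### Connected sets and their outer boundary -/

/-- `A` is a set connected in `G` from its element `r`. -/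
def Conn (G : SimpleGraph V) (A : Finset V) (r : V) : Prop :=
  r ∈ A ∧ ∀ a ∈ A, Relation.ReflTransGen (fun x y => G.Adj x y ∧ x ∈ A ∧ y ∈ A) r a

open Classical in
/-- The outer boundary. -/
noncomputable def bd [Fintype V] (G : SimpleGraph V) (A : Finset V) : Finset V :=
  univ.filter fun v => v ∉ A ∧ ∃ a ∈ A, G.Adj a v

theorem mem_bd [Fintype V] (G : SimpleGraph V) (A : Finset V) (v : V) :
    v ∈ bd G A ↔ v ∉ A ∧ ∃ a ∈ A, G.Adj a v := by simp [bd]

section growth

variable [Fintype V] [DecidableEq V] (G : SimpleGraph V)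

theorem conn_insert {G : SimpleGraph V} {A : Finset V} {r b : V} (h : Conn G A r)
    (hb : ∃ a ∈ A, G.Adj a b) : Conn G (insert b A) r := by
  refine ⟨mem_insert_of_mem h.1, ?_⟩
  have hmono : ∀ a ∈ A, Relation.ReflTransGen
      (fun x y => G.Adj x y ∧ x ∈ insert b A ∧ y ∈ insert b A) r a := by
    intro a ha
    refine Relation.ReflTransGen.mono ?_ _ _ (h.2 a ha)
    rintro x y ⟨h1, h2, h3⟩
    exact ⟨h1, mem_insert_of_mem h2, mem_insert_of_mem h3⟩
  intro a ha
  rcases mem_insert.1 ha with rfl | ha
  · obtain ⟨c, hc, hca⟩ := hb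
    exact (hmono c hc).tail ⟨hca, mem_insert_of_mem hc, mem_insert_self _ _⟩
  · exact hmono a ha

/-- Growing to a dominating connected set does not decrease the boundary. -/
theorem grow (hG : G.Connected) :
    ∀ (n : ℕ) (A : Finset V) (r : V), Conn G A r → (univ \ A).card ≤ n →
      ∃ B, Conn G B r ∧ (∀ v, v ∈ B ∨ v ∈ bd G B) ∧ (bd G A).card ≤ (bd G B).card := by
  intro n
  induction n with
  | zero =>
    intro A r hA hn
    refine ⟨A, hA, fun v => Or.inl ?_, le_rfl⟩
    have : univ \ A = ∅ := by simpa using hn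
    by_contra hv
    have : v ∈ univ \ A := by simp [hv]
    simp_all
  | succ n ih =>
    intro A r hA hn
    by_cases hdom : ∀ v, v ∈ A ∨ v ∈ bd G A
    · exact ⟨A, hA, hdom, le_rfl⟩
    · push Not at hdom
      obtain ⟨z, hzA, hzb⟩ := hdom
      -- a boundary vertex with a neighbour outside
      have key : ∃ b z, b ∈ bd G A ∧ z ∉ A ∧ z ∉ bd G A ∧ G.Adj b z := by
        by_contra hcon
        push Not at hcon
        have hr : Relation.ReflTransGen G.Adj r z := by
          have := hG.preconnected r z
          rwa [SimpleGraph.reachable_iff_reflTransGen] at this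
        have : ∀ y, Relation.ReflTransGen G.Adj r y → y ∈ A ∨ y ∈ bd G A := by
          intro y hy
          induction hy with
          | refl => exact Or.inl hA.1
          | @tail b c _ hbc hb =>
            by_cases hcA : c ∈ A
            · exact Or.inl hcA
            · right
              rcases hb with hb | hb
              · exact (mem_bd G A c).2 ⟨hcA, b, hb, hbc⟩
              · by_contra hcb
                exact hcon b c hb hcA hcb hbc
        rcases this z hr with h | h
        · exact hzA h
        · exact hzb h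
      obtain ⟨b, z', hb, hz'A, hz'b, hbz⟩ := key
      have hb' := (mem_bd G A b).1 hb
      have hC : Conn G (insert b A) r := conn_insert hA hb'.2
      have hcard : (univ \ insert b A).card ≤ n := by
        have h1 : univ \ insert b A = (univ \ A).erase b := by
          ext x; simp [mem_insert, not_or]
        rw [h1, card_erase_of_mem (by simp [hb'.1])]
        omega
      obtain ⟨B, hB1, hB2, hB3⟩ := ih _ r hC hcard
      refine ⟨B, hB1, hB2, le_trans ?_ hB3⟩
      have hsub : insert z' ((bd G A).erase b) ⊆ bd G (insert b A) := by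
        intro x hx
        rw [mem_bd]
        rcases mem_insert.1 hx with rfl | hx
        · refine ⟨?_, b, mem_insert_self _ _, hbz⟩
          rw [mem_insert, not_or]
          exact ⟨fun h => hbz.ne h.symm, hz'A⟩
        · rw [mem_erase] at hx
          obtain ⟨h1, h2⟩ := (mem_bd G A x).1 hx.2
          refine ⟨?_, ?_⟩
          · rw [mem_insert, not_or]; exact ⟨hx.1, h1⟩
          · obtain ⟨a, ha, hax⟩ := h2
            exact ⟨a, mem_insert_of_mem ha, hax⟩
      have h2 : (insert z' ((bd G A).erase b)).card = (bd G A).card := by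
        rw [card_insert_of_notMem (fun h => hz'b (mem_of_mem_erase h)), card_erase_of_mem hb]
        have : 0 < (bd G A).card := card_pos.2 ⟨b, hb⟩
        omega
      rw [← h2]
      exact card_le_card hsub

theorem bd_le_leafNumber (hG : G.Connected) (hV : 2 ≤ Fintype.card V) (A : Finset V) (r : V)
    (hA : Conn G A r) : (bd G A).card ≤ leafNumber G := by
  classical
  obtain ⟨B, hB1, hB2, hB3⟩ := grow G hG _ A r hA le_rfl
  refine le_trans hB3 ?_
  -- the graph keeping one edge to each boundary vertex
  have hch : ∀ v ∈ bd G B, ∃ a ∈ B, G.Adj a v := fun v hv => ((mem_bd G B v).1 hv).2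
  choose! f hf1 hf2 using hch
  let H : SimpleGraph V := SimpleGraph.fromRel
    (fun x y => G.Adj x y ∧ x ∈ B ∧ (y ∈ B ∨ (y ∈ bd G B ∧ x = f y)))
  have hH : ∀ x y, H.Adj x y ↔ (G.Adj x y ∧ x ∈ B ∧ (y ∈ B ∨ (y ∈ bd G B ∧ x = f y))) ∨
      (G.Adj y x ∧ y ∈ B ∧ (x ∈ B ∨ (x ∈ bd G B ∧ y = f x))) := by
    intro x y
    simp only [H, SimpleGraph.fromRel_adj]
    constructor
    · rintro ⟨_, h⟩; exact h
    · intro h
      refine ⟨?_, h⟩
      rcases h with h | h
      · exact h.1.ne
      · exact h.1.ne'
  have hHG : H ≤ G := by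
    intro x y h
    rcases (hH x y).1 h with h | h
    · exact h.1
    · exact h.1.symm
  have hreach : ∀ v, Relation.ReflTransGen H.Adj r v := by
    have hin : ∀ a ∈ B, Relation.ReflTransGen H.Adj r a := by
      intro a ha
      refine Relation.ReflTransGen.mono ?_ _ _ (hB1.2 a ha)
      rintro x y ⟨h1, h2, h3⟩
      exact (hH x y).2 (Or.inl ⟨h1, h2, Or.inl h3⟩)
    intro v
    rcases hB2 v with hv | hv
    · exact hin v hv
    · exact (hin (f v) (hf1 v hv)).tail
        ((hH _ _).2 (Or.inl ⟨hf2 v hv, hf1 v hv, Or.inr ⟨hv, rfl⟩⟩))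
  have hHc : H.Connected := by
    have : Nonempty V := ⟨r⟩
    refine ⟨?_⟩
    intro x y
    have hx : H.Reachable r x := by rw [SimpleGraph.reachable_iff_reflTransGen]; exact hreach x
    have hy : H.Reachable r y := by rw [SimpleGraph.reachable_iff_reflTransGen]; exact hreach y
    exact hx.symm.trans hy
  obtain ⟨T, hTH, hT⟩ := hHc.exists_isTree_le
  have hleaf : (bd G B : Set V) ⊆ {v | deg T v = 1} := by
    intro v hv
    have hv : v ∈ bd G B := hv
    have hvB : v ∉ B := ((mem_bd G B v).1 hv).1
    have hsub : ∀ w, T.Adj v w → w = f v := by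
      intro w hw
      rcases (hH v w).1 (hTH hw) with h | h
      · exact absurd h.2.1 hvB
      · rcases h.2.2 with h' | h'
        · exact absurd h' hvB
        · exact h'.2
    obtain ⟨w, hw⟩ : ∃ w, T.Adj v w := by
      have : Nontrivial V := Fintype.one_lt_card_iff_nontrivial.1 hV
      obtain ⟨u, hu⟩ := exists_ne v
      have h1 := hT.1.preconnected v u
      rw [SimpleGraph.reachable_iff_reflTransGen] at h1
      rcases Relation.ReflTransGen.cases_head h1 with h | ⟨c, hc, _⟩
      · exact absurd h.symm hu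
      · exact ⟨c, hc⟩
    have : {w | T.Adj v w} = {f v} := by
      ext w'
      simp only [Set.mem_ofPred_eq, Set.mem_singleton_iff]
      constructor
      · exact hsub w'
      · rintro rfl
        rw [← hsub w hw]; exact hw
    change {w | T.Adj v w}.ncard = 1
    rw [this, Set.ncard_singleton]
  have h1 : (bd G B).card ≤ {v | deg T v = 1}.ncard := by
    rw [← Set.ncard_coe_finset]
    exact Set.ncard_le_ncard hleaf (Set.toFinite _)
  refine le_trans h1 (le_csSup ?_ ⟨T, hTH.trans hHG, hT, rfl⟩)
  refine ⟨Fintype.card V, ?_⟩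
  rintro m ⟨T', _, _, rfl⟩
  rw [← Nat.card_eq_fintype_card]
  exact Set.ncard_le_card _

end growth

/-! ### Paths -/

/-- `p 0, ..., p (m - 1)` is a path with `m` vertices. -/
def Path (G : SimpleGraph V) (p : ℕ → V) (m : ℕ) : Prop :=
  (∀ i, i < m → ∀ j, j < m → p i = p j → i = j) ∧ ∀ i, i + 1 < m → G.Adj (p i) (p (i + 1))

/-- A longest path. -/
def Longest (G : SimpleGraph V) (p : ℕ → V) (m : ℕ) : Prop :=
  Path G p m ∧ ∀ q m', Path G q m' → m' ≤ m

section paths

variable {G : SimpleGraph V}

theorem Path.pre {p : ℕ → V} {m m' : ℕ} (h : Path G p m) (hm : m' ≤ m) : Path G p m' :=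
  ⟨fun i hi j hj => h.1 i (by omega) j (by omega), fun i hi => h.2 i (by omega)⟩

theorem Path.rev {p : ℕ → V} {m : ℕ} (h : Path G p m) : Path G (fun t => p (m - 1 - t)) m := by
  refine ⟨fun i hi j hj hij => ?_, fun i hi => ?_⟩
  · have := h.1 _ (by omega) _ (by omega) hij
    omega
  · have h1 := h.2 (m - 1 - (i + 1)) (by omega)
    have h2 : m - 1 - (i + 1) + 1 = m - 1 - i := by omega
    rw [h2] at h1
    exact h1.symm

theorem Longest.rev {p : ℕ → V} {m : ℕ} (h : Longest G p m) :
    Longest G (fun t => p (m - 1 - t)) m := ⟨h.1.rev, h.2⟩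

theorem Longest.head {p : ℕ → V} {m : ℕ} (h : Longest G p m) {u : V} (hu : G.Adj (p 0) u) :
    ∃ j, j < m ∧ u = p j := by
  by_contra hcon
  push Not at hcon
  have hq : Path G (fun t => if t = 0 then u else p (t - 1)) (m + 1) := by
    refine ⟨fun i hi j hj hij => ?_, fun i hi => ?_⟩
    · dsimp only at hij
      split_ifs at hij with h1 h2 h2
      · omega
      · exact absurd hij (hcon _ (by omega))
      · exact absurd hij.symm (hcon _ (by omega))
      · have := h.1.1 _ (by omega) _ (by omega) hij
        omega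
    · dsimp only
      rw [if_neg (by omega : ¬ i + 1 = 0)]
      split_ifs with h1
      · subst h1; exact hu.symm
      · have := h.1.2 (i - 1) (by omega)
        have h2 : i - 1 + 1 = i + 1 - 1 := by omega
        rw [h2] at this
        exact this
  have := h.2 _ _ hq
  omega

theorem Longest.last {p : ℕ → V} {m : ℕ} (h : Longest G p m) (hm : 0 < m) {u : V}
    (hu : G.Adj (p (m - 1)) u) : ∃ j, j < m ∧ u = p j := by
  obtain ⟨j, hj, hj'⟩ := h.rev.head (u := u) (by simpa using hu)
  exact ⟨m - 1 - j, by omega, hj'⟩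

theorem Longest.two {p : ℕ → V} {m : ℕ} (h : Longest G p m) {w : V}
    (hw : ∀ j, j < m → p j ≠ w) {i : ℕ} (hi : i + 1 < m) (hwi : G.Adj (p i) w)
    (h0 : G.Adj (p 0) (p (i + 1))) : False := by
  have hq : Path G (fun t => if t = 0 then w else if t ≤ i + 1 then p (i + 1 - t) else p (t - 1))
      (m + 1) := by
    refine ⟨fun a ha b hb hab => ?_, fun a ha => ?_⟩
    · dsimp only at hab
      split_ifs at hab with h1 h2 h3 h4 h5 h6 h7 h8
      · omega
      · exact absurd hab.symm (hw _ (by omega))
      · exact absurd hab.symm (hw _ (by omega))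
      · exact absurd hab (hw _ (by omega))
      · have := h.1.1 _ (by omega) _ (by omega) hab; omega
      · have := h.1.1 _ (by omega) _ (by omega) hab; omega
      · exact absurd hab (hw _ (by omega))
      · have := h.1.1 _ (by omega) _ (by omega) hab; omega
      · have := h.1.1 _ (by omega) _ (by omega) hab; omega
    · dsimp only
      rw [if_neg (by omega : ¬ a + 1 = 0)]
      split_ifs with h1 h2 h3 h4 h5
      · subst h1; simpa using hwi.symm
      · omega
      · have := h.1.2 (i + 1 - (a + 1)) (by omega)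
        have h2 : i + 1 - (a + 1) + 1 = i + 1 - a := by omega
        rw [h2] at this; exact this.symm
      · have : a = i + 1 := by omega
        subst this
        simpa using h0
      · omega
      · have := h.1.2 (a - 1) (by omega)
        have h2 : a - 1 + 1 = a + 1 - 1 := by omega
        rw [h2] at this; exact this
  have := h.2 _ _ hq
  omega

/-- Going around a closed chain from an outer vertex. -/
theorem around {c : ℕ → V} {m : ℕ} (hc : Path G c m) (hcl : G.Adj (c (m - 1)) (c 0)) {w : V}
    (hw : ∀ j, j < m → c j ≠ w) {i : ℕ} (hi : i < m) (hwi : G.Adj (c i) w) :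
    ∃ q, Path G q (m + 1) ∧ q 0 = w ∧ (∀ j, j ≤ m → q j = w ∨ ∃ t, t < m ∧ q j = c t) ∧
      (∀ j, 1 ≤ j → j ≤ m → ∃ t, t < m ∧ q j = c t) ∧
      (∀ t, t < m → ∃ j, j ≤ m ∧ q j = c t) := by
  refine ⟨fun t => if t = 0 then w else if i + t - 1 < m then c (i + t - 1) else c (i + t - 1 - m),
    ⟨fun a ha b hb hab => ?_, fun a ha => ?_⟩, by simp, ?_, ?_, ?_⟩
  · dsimp only at hab
    split_ifs at hab with h1 h2 h3 h4 h5 h6 h7 h8
    · omega
    · exact absurd hab.symm (hw _ (by omega))
    · exact absurd hab.symm (hw _ (by omega))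
    · exact absurd hab (hw _ (by omega))
    · have := hc.1 _ (by omega) _ (by omega) hab; omega
    · have := hc.1 _ (by omega) _ (by omega) hab; omega
    · exact absurd hab (hw _ (by omega))
    · have := hc.1 _ (by omega) _ (by omega) hab; omega
    · have := hc.1 _ (by omega) _ (by omega) hab; omega
  · dsimp only
    rw [if_neg (by omega : ¬ a + 1 = 0)]
    split_ifs with h1 h2 h3 h4 h5
    · subst h1; simpa using hwi.symm
    · omega
    · have := hc.2 (i + a - 1) (by omega)
      have h2 : i + a - 1 + 1 = i + (a + 1) - 1 := by omega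
      rw [h2] at this; exact this
    · have h6 : i + a - 1 = m - 1 := by omega
      have h7 : i + (a + 1) - 1 - m = 0 := by omega
      rw [h6, h7]; exact hcl
    · omega
    · have := hc.2 (i + a - 1 - m) (by omega)
      have h2 : i + a - 1 - m + 1 = i + (a + 1) - 1 - m := by omega
      rw [h2] at this; exact this
  · intro j hj
    dsimp only
    split_ifs with h1 h2
    · exact Or.inl rfl
    · exact Or.inr ⟨_, by omega, rfl⟩
    · exact Or.inr ⟨_, by omega, rfl⟩
  · intro j hj hj'
    dsimp only
    rw [if_neg (by omega : ¬ j = 0)]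
    split_ifs with h2
    · exact ⟨_, by omega, rfl⟩
    · exact ⟨_, by omega, rfl⟩
  · intro t ht
    by_cases h : i ≤ t
    · refine ⟨t - i + 1, by omega, ?_⟩
      dsimp only
      rw [if_neg (by omega), if_pos (by omega)]
      congr 1; omega
    · refine ⟨t + m - i + 1, by omega, ?_⟩
      dsimp only
      rw [if_neg (by omega), if_neg (by omega)]
      congr 1; omega

/-- The closed chain given by a crossing. -/
theorem crossing {p : ℕ → V} {m : ℕ} (hp : Path G p m) {b : ℕ} (hb : b + 1 < m)
    (h1 : G.Adj (p b) (p (m - 1))) (h2 : G.Adj (p 0) (p (b + 1))) :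
    ∃ c, Path G c m ∧ G.Adj (c (m - 1)) (c 0) ∧ (∀ t, t < m → ∃ s, s < m ∧ c t = p s) ∧
      ∀ s, s < m → ∃ t, t < m ∧ c t = p s := by
  refine ⟨fun t => if t ≤ b then p t else p (m + b - t), ⟨fun a ha d hd hab => ?_, fun a ha => ?_⟩,
    ?_, ?_, ?_⟩
  · dsimp only at hab
    split_ifs at hab with h3 h4 h5
    all_goals
      have := hp.1 _ (by omega) _ (by omega) hab
      omega
  · dsimp only
    split_ifs with h3 h4 h5
    · exact hp.2 a ha
    · have h6 : a = b := by omega
      subst h6
      have h7 : m + a - (a + 1) = m - 1 := by omega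
      rw [h7]; exact h1
    · omega
    · have := hp.2 (m + b - (a + 1)) (by omega)
      have h8 : m + b - (a + 1) + 1 = m + b - a := by omega
      rw [h8] at this; exact this.symm
  · dsimp only
    rw [if_neg (by omega), if_pos (by omega)]
    have h8 : m + b - (m - 1) = b + 1 := by omega
    rw [h8]; exact h2.symm
  · intro t ht
    dsimp only
    split_ifs with h3
    · exact ⟨t, ht, rfl⟩
    · exact ⟨m + b - t, by omega, rfl⟩
  · intro s hs
    by_cases h : s ≤ b
    · exact ⟨s, hs, by dsimp only; rw [if_pos h]⟩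
    · refine ⟨m + b - s, by omega, ?_⟩
      dsimp only
      rw [if_neg (by omega)]
      congr 1; omega

theorem Longest.closed {p : ℕ → V} {m : ℕ} (h : Longest G p m) {c : ℕ → V} (hc : Path G c m)
    (hcl : G.Adj (c (m - 1)) (c 0)) {w : V}
    (hw : ∀ j, j < m → c j ≠ w) {i : ℕ} (hi : i < m) (hwi : G.Adj (c i) w) : False := by
  obtain ⟨q, hq, _⟩ := around hc hcl hw hi hwi
  have := h.2 _ _ hq
  omega

end paths

/-! ### The connected set built from a path -/

theorem c0 [Fintype V] {G : SimpleGraph V} {p : ℕ → V} {m : ℕ} (hp : Path G p m) {w : V}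
    {i b : ℕ} (h0 : ∀ u, G.Adj (p 0) u → ∃ j, 1 ≤ j ∧ j + 2 ≤ m ∧ u = p j)
    (hw : ∀ j, j < m → p j ≠ w) (hi : i + 3 ≤ m) (hwi : G.Adj (p i) w)
    (hi' : i = 0 ∨ ¬ G.Adj (p 0) (p (i + 1)))
    (hb : b + 3 ≤ m) (hbm : G.Adj (p b) (p (m - 1))) (hb' : b = 0 ∨ ¬ G.Adj (p 0) (p (b + 1))) :
    ∃ A r, Conn G A r ∧ deg G (p 0) + 2 ≤ (bd G A).card := by
  classical
  set A : Finset V :=
    ((range (m - 2)).filter (fun t => t = 0 ∨ ¬ G.Adj (p 0) (p (t + 1)))).image p with hA
  set J : Finset ℕ :=
    (range (m - 2)).filter (fun t => t ≠ 0 ∧ G.Adj (p 0) (p (t + 1))) with hJ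
  have memA : ∀ t, t < m - 2 → (t = 0 ∨ ¬ G.Adj (p 0) (p (t + 1))) → p t ∈ A := by
    intro t ht h
    rw [hA, mem_image]
    exact ⟨t, by rw [mem_filter, mem_range]; exact ⟨ht, h⟩, rfl⟩
  have memA' : ∀ t, t < m → p t ∈ A → t < m - 2 ∧ (t = 0 ∨ ¬ G.Adj (p 0) (p (t + 1))) := by
    intro t ht h
    rw [hA, mem_image] at h
    obtain ⟨s, hs, hst⟩ := h
    rw [mem_filter, mem_range] at hs
    have := hp.1 s (by omega) t ht hst
    subst this
    exact hs
  have hwA : w ∉ A := by
    intro h
    rw [hA, mem_image] at h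
    obtain ⟨s, hs, hst⟩ := h
    rw [mem_filter, mem_range] at hs
    exact hw s (by omega) hst
  have h0A : p 0 ∈ A := memA 0 (by omega) (Or.inl rfl)
  have hreach : ∀ t, t < m - 2 → (t = 0 ∨ ¬ G.Adj (p 0) (p (t + 1))) →
      Relation.ReflTransGen (fun x y => G.Adj x y ∧ x ∈ A ∧ y ∈ A) (p 0) (p t) := by
    intro t
    induction t with
    | zero => intro _ _; exact Relation.ReflTransGen.refl
    | succ t ih =>
      intro ht h
      by_cases hadj : G.Adj (p 0) (p (t + 1))
      · exact Relation.ReflTransGen.single ⟨hadj, h0A, memA _ ht h⟩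
      · exact (ih (by omega) (Or.inr hadj)).tail
          ⟨hp.2 t (by omega), memA t (by omega) (Or.inr hadj), memA _ ht h⟩
  have hadjA : ∀ t, t + 1 ≤ m - 2 → ∃ a ∈ A, G.Adj a (p (t + 1)) := by
    intro t ht
    by_cases hadj : G.Adj (p 0) (p (t + 1))
    · exact ⟨p 0, h0A, hadj⟩
    · exact ⟨p t, memA t (by omega) (Or.inr hadj), hp.2 t (by omega)⟩
  refine ⟨A, p 0, ⟨h0A, ?_⟩, ?_⟩
  · intro a ha
    rw [hA, mem_image] at ha
    obtain ⟨s, hs, rfl⟩ := ha
    rw [mem_filter, mem_range] at hs
    exact hreach s hs.1 hs.2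
  · -- the degree
    have hdeg : deg G (p 0) ≤ J.card + 1 := by
      have hsub : {u | G.Adj (p 0) u} ⊆ ((insert (p 1) (J.image fun t => p (t + 1)) : Finset V) : Set V) := by
        intro u hu
        obtain ⟨j, hj1, hj2, rfl⟩ := h0 u hu
        rw [mem_coe, mem_insert]
        rcases Nat.lt_or_ge 1 j with h | h
        · right
          rw [mem_image]
          refine ⟨j - 1, ?_, by congr 1; omega⟩
          rw [hJ, mem_filter, mem_range]
          refine ⟨by omega, by omega, ?_⟩
          have : j - 1 + 1 = j := by omega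
          rw [this]; exact hu
        · left; congr 1; omega
      have h1 := Set.ncard_le_ncard hsub (Set.toFinite _)
      rw [Set.ncard_coe_finset] at h1
      have h2 := card_insert_le (p 1) (J.image fun t => p (t + 1))
      have h3 : (J.image fun t => p (t + 1)).card ≤ J.card := card_image_le
      unfold deg
      omega
    -- the boundary
    set K : Finset ℕ := insert (m - 1) (insert (m - 2) J) with hK
    have hKlt : ∀ t ∈ K, t < m := by
      intro t ht
      rw [hK, mem_insert, mem_insert, hJ, mem_filter, mem_range] at ht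
      omega
    have hKcard : K.card = J.card + 2 := by
      rw [hK, card_insert_of_notMem, card_insert_of_notMem]
      · rw [hJ, mem_filter, mem_range]; omega
      · rw [mem_insert, hJ, mem_filter, mem_range]; omega
    have himg : (K.image p).card = K.card := by
      rw [card_image_iff]
      intro a ha b hb hab
      exact hp.1 a (hKlt a ha) b (hKlt b hb) hab
    have hwK : w ∉ K.image p := by
      intro h
      rw [mem_image] at h
      obtain ⟨t, ht, htw⟩ := h
      exact hw t (hKlt t ht) htw
    have hsub : insert w (K.image p) ⊆ bd G A := by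
      intro u hu
      rw [mem_bd]
      rcases mem_insert.1 hu with rfl | hu
      · exact ⟨hwA, p i, memA i (by omega) hi', hwi⟩
      · rw [mem_image] at hu
        obtain ⟨t, ht, rfl⟩ := hu
        have htm := hKlt t ht
        rw [hK, mem_insert, mem_insert, hJ, mem_filter, mem_range] at ht
        rcases ht with rfl | rfl | ⟨ht1, ht2, ht3⟩
        · refine ⟨fun h => ?_, p b, memA b (by omega) hb', hbm⟩
          have := (memA' _ htm h).1
          omega
        · refine ⟨fun h => ?_, ?_⟩
          · have := (memA' _ htm h).1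
            omega
          · have := hadjA (m - 3) (by omega)
            have h3 : m - 3 + 1 = m - 2 := by omega
            rwa [h3] at this
        · refine ⟨fun h => ?_, ?_⟩
          · rcases (memA' _ htm h).2 with h' | h'
            · exact ht2 h'
            · exact h' ht3
          · have := hadjA (t - 1) (by omega)
            have h3 : t - 1 + 1 = t := by omega
            rwa [h3] at this
    have h4 := card_le_card hsub
    rw [card_insert_of_notMem hwK, himg, hKcard] at h4
    omega

section cases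

variable [Fintype V] {G : SimpleGraph V} {k : ℕ}

theorem exists_other {v : V} (h : 2 ≤ deg G v) (a : V) : ∃ u, G.Adj v u ∧ u ≠ a := by
  obtain ⟨u, hu, hua⟩ := Set.exists_ne_of_one_lt_ncard (s := {w | G.Adj v w}) h a
  exact ⟨u, hu, hua⟩

theorem c1 {p : ℕ → V} {m : ℕ} (hL : Longest G p m)
    (hq : ∀ A r, Conn G A r → (bd G A).card ≤ k + 1) {w : V} {i : ℕ}
    (hw : ∀ j, j < m → p j ≠ w) (hi : i + 3 ≤ m) (hwi : G.Adj (p i) w)
    (hd0 : k ≤ deg G (p 0)) (hd1 : 2 ≤ deg G (p (m - 1))) : False := by
  obtain ⟨u, hu, hu2⟩ := exists_other hd1 (p (m - 2))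
  obtain ⟨b, hb, rfl⟩ := hL.last (by omega) hu
  have hb1 : b ≠ m - 1 := fun h => by rw [h] at hu; exact G.loopless.irrefl _ hu
  have hb2 : b ≠ m - 2 := fun h => hu2 (by rw [h])
  have hcl : ¬ G.Adj (p 0) (p (m - 1)) := fun h =>
    hL.closed hL.1 h.symm hw (by omega) hwi
  obtain ⟨A, r, hA, hcard⟩ := c0 (G := G) (p := p) (m := m) hL.1 (w := w) (i := i) (b := b)
    (by
      intro u hu
      obtain ⟨j, hj, rfl⟩ := hL.head hu
      have hj0 : j ≠ 0 := fun h => by rw [h] at hu; exact G.loopless.irrefl _ hu
      have hj1 : j ≠ m - 1 := fun h => by rw [h] at hu; exact hcl hu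
      exact ⟨j, by omega, by omega, rfl⟩)
    hw hi hwi
    (by
      rw [or_iff_not_imp_left]
      intro _ h
      exact hL.two hw (by omega) hwi h)
    (by omega) hu.symm
    (by
      rw [or_iff_not_imp_left]
      intro _ h
      obtain ⟨c, hc, hcl', hc1, hc2⟩ := crossing hL.1 (by omega) hu.symm h
      obtain ⟨t, ht, hti⟩ := hc2 i (by omega)
      refine hL.closed hc hcl' (w := w) (fun j hj => ?_) ht (by rw [hti]; exact hwi)
      obtain ⟨s, hs, hs'⟩ := hc1 j hj
      rw [hs']; exact hw s hs)
  have := hq A r hA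
  omega

theorem c2 {p : ℕ → V} {m : ℕ} (hL : Longest G p m) (hk : 2 ≤ k)
    (hq : ∀ A r, Conn G A r → (bd G A).card ≤ k + 1) {w : V} {i : ℕ}
    (hw : ∀ j, j < m → p j ≠ w) (hi : i < m) (hwi : G.Adj (p i) w)
    (hd0 : k ≤ deg G (p 0)) (hd1 : k ≤ deg G (p (m - 1))) : False := by
  have hi0 : i ≠ 0 := by
    rintro rfl
    obtain ⟨j, hj, hj'⟩ := hL.head hwi
    exact hw j hj hj'.symm
  have hi1 : i ≠ m - 1 := by
    rintro rfl
    obtain ⟨j, hj, hj'⟩ := hL.last (by omega) hwi
    exact hw j hj hj'.symm
  have hm : 4 ≤ m := by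
    obtain ⟨u, hu, hu2⟩ := exists_other (G := G) (v := p 0) (by omega) (p 1)
    obtain ⟨j, hj, rfl⟩ := hL.head hu
    have hj0 : j ≠ 0 := fun h => by rw [h] at hu; exact G.loopless.irrefl _ hu
    have hj1 : j ≠ 1 := fun h => hu2 (by rw [h])
    have hj2 : j ≠ m - 1 := fun h => by
      rw [h] at hu
      exact hL.closed hL.1 hu.symm hw (by omega) hwi
    omega
  by_cases h3 : i + 3 ≤ m
  · exact c1 hL hq hw h3 hwi hd0 (by omega)
  · have hi2 : i = m - 2 := by omega
    refine c1 (w := w) (i := 1) hL.rev hq (fun j hj => hw _ (by omega)) (by omega) ?_ ?_ ?_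
    · have : m - 1 - 1 = i := by omega
      try dsimp only
      rw [this]; exact hwi
    · simpa using hd1
    · have : m - 1 - (m - 1) = 0 := by omega
      try dsimp only
      rw [this]; omega

theorem c3 {p : ℕ → V} {m : ℕ} (hL : Longest G p m) (hk : 2 ≤ k)
    (hq : ∀ A r, Conn G A r → (bd G A).card ≤ k + 1)
    (hd : ∀ v u, G.Adj v u → v ≠ p (m - 1) → k ≤ deg G v) {w : V} {i : ℕ}
    (hw : ∀ j, j < m → p j ≠ w) (hi : i < m) (hwi : G.Adj (p i) w) :
    3 ≤ m ∧ (∀ u, G.Adj (p (m - 1)) u → u = p (m - 2)) ∧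
      ∀ u, G.Adj (p (m - 2)) u → u = p (m - 3) ∨ u = p (m - 1) := by
  have hi0 : i ≠ 0 := by
    rintro rfl
    obtain ⟨j, hj, hj'⟩ := hL.head hwi
    exact hw j hj hj'.symm
  have hi1 : i ≠ m - 1 := by
    rintro rfl
    obtain ⟨j, hj, hj'⟩ := hL.last (by omega) hwi
    exact hw j hj hj'.symm
  have hm3 : 3 ≤ m := by omega
  have hinj := hL.1.1
  have hadj := hL.1.2
  have hadj0 : G.Adj (p 0) (p 1) := hadj 0 (by omega)
  have hd0 : k ≤ deg G (p 0) :=
    hd _ _ hadj0 (fun h => by have := hinj 0 (by omega) (m - 1) (by omega) h; omega)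
  have hdw : k ≤ deg G w := hd _ _ hwi.symm (fun h => hw (m - 1) (by omega) h.symm)
  have hxy : G.Adj (p (m - 2)) (p (m - 1)) := by
    have := hadj (m - 2) (by omega)
    have h2 : m - 2 + 1 = m - 1 := by omega
    rwa [h2] at this
  -- no outer vertex is attached at `m - 2`
  have stepA : ∀ w' : V, (∀ j, j < m → p j ≠ w') → ¬ G.Adj (p (m - 2)) w' := by
    intro w' hw' hadj'
    have hP : Path G (fun t => if t < m - 1 then p t else w') m := by
      refine ⟨fun a ha b hb hab => ?_, fun a ha => ?_⟩
      · dsimp only at hab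
        split_ifs at hab with h1 h2 h3
        · exact hinj _ ha _ hb hab
        · exact absurd hab (hw' _ ha)
        · exact absurd hab.symm (hw' _ hb)
        · omega
      · try dsimp only
        rw [if_pos (by omega : a < m - 1)]
        split_ifs with h1
        · exact hadj a ha
        · have : a = m - 2 := by omega
          subst this; exact hadj'
    have hLP : Longest G (fun t => if t < m - 1 then p t else w') m := ⟨hP, hL.2⟩
    refine c2 (w := p (m - 1)) (i := m - 2) hLP hk hq (fun j hj => ?_) (by omega) ?_ ?_ ?_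
    · try dsimp only
      split_ifs with h1
      · intro h
        have := hinj _ hj _ (by omega) h
        omega
      · exact fun h => hw' (m - 1) (by omega) h.symm
    · try dsimp only
      rw [if_pos (by omega)]
      exact hxy
    · try dsimp only
      rw [if_pos (by omega)]; exact hd0
    · try dsimp only
      rw [if_neg (by omega)]
      exact hd _ _ hadj'.symm (fun h => hw' (m - 1) (by omega) h.symm)
  have hi2 : i ≠ m - 2 := fun h => stepA w hw (by rw [← h]; exact hwi)
  have hi3 : i + 3 ≤ m := by omega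
  have hdx : ∀ u, G.Adj (p (m - 1)) u → u = p (m - 2) := by
    intro u hu
    by_contra hne
    refine c1 hL hq hw hi3 hwi hd0 ?_
    have hsub : ({u, p (m - 2)} : Set V) ⊆ {v | G.Adj (p (m - 1)) v} := by
      intro v hv
      rcases hv with rfl | rfl
      · exact hu
      · exact hxy.symm
    have h1 := Set.ncard_le_ncard hsub (Set.toFinite _)
    rw [Set.ncard_pair hne] at h1
    exact h1
  -- a closed chain on the first `m - 1` vertices
  have stepC : ∀ c : ℕ → V, Path G c (m - 1) → G.Adj (c (m - 1 - 1)) (c 0) →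
      (∀ t, t < m - 1 → ∃ s, s < m - 1 ∧ c t = p s) →
      (∀ s, s < m - 1 → ∃ t, t < m - 1 ∧ c t = p s) → False := by
    intro c hc hcl hc1 hc2
    obtain ⟨t, ht, hti⟩ := hc2 i (by omega)
    obtain ⟨q, hq1, hq2, hq3, hq4, hq5⟩ := around hc hcl (w := w) (fun j hj h => by
      obtain ⟨s, hs, hs'⟩ := hc1 j hj
      exact hw s (by omega) (by rw [← hs']; exact h)) ht (by rw [hti]; exact hwi)
    have hmm : m - 1 + 1 = m := by omega
    rw [hmm] at hq1
    have hLq : Longest G q m := ⟨hq1, hL.2⟩
    obtain ⟨t2, ht2, ht2'⟩ := hc2 (m - 2) (by omega)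
    obtain ⟨j2, hj2, hj2'⟩ := hq5 t2 ht2
    refine c2 (w := p (m - 1)) (i := j2) hLq hk hq (fun j hj h => ?_) (by omega) ?_ ?_ ?_
    · rcases hq3 j (by omega) with h' | ⟨t3, ht3, h'⟩
      · exact hw (m - 1) (by omega) (by rw [← h, h'])
      · obtain ⟨s, hs, hs'⟩ := hc1 t3 ht3
        have := hinj s (by omega) (m - 1) (by omega) (by rw [← hs', ← h', h])
        omega
    · rw [hj2', ht2']; exact hxy
    · rw [hq2]; exact hdw
    · obtain ⟨t3, ht3, h'⟩ := hq4 (m - 1) (by omega) le_rfl
      have h4 := hq1.2 (m - 2) (by omega)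
      have h5 : m - 2 + 1 = m - 1 := by omega
      rw [h5] at h4
      refine hd _ _ h4.symm (fun h => ?_)
      obtain ⟨s, hs, hs'⟩ := hc1 t3 ht3
      have := hinj s (by omega) (m - 1) (by omega) (by rw [← hs', ← h', h])
      omega
  have stepD : ¬ G.Adj (p 0) (p (m - 2)) := by
    intro h
    have h2 : m - 1 - 1 = m - 2 := by omega
    exact stepC p (hL.1.pre (by omega)) (by rw [h2]; exact h.symm)
      (fun t ht => ⟨t, ht, rfl⟩) (fun s hs => ⟨s, hs, rfl⟩)
  refine ⟨hm3, hdx, ?_⟩
  intro u hu
  by_contra hne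
  rw [not_or] at hne
  have huP : ∃ b, b < m ∧ u = p b := by
    by_contra hcon
    push Not at hcon
    exact stepA u (fun j hj h => hcon j hj h.symm) hu
  obtain ⟨b, hb, rfl⟩ := huP
  have hb1 : b ≠ m - 1 := fun h => hne.2 (by rw [h])
  have hb2 : b ≠ m - 2 := fun h => by rw [h] at hu; exact G.loopless.irrefl _ hu
  have hb3 : b ≠ m - 3 := fun h => hne.1 (by rw [h])
  have hb4 : b + 4 ≤ m := by omega
  have hm2 : m - 1 - 1 = m - 2 := by omega
  -- another attachment vertex of `w`
  obtain ⟨i', hi', hwi'⟩ : ∃ i', i' + 4 ≤ m ∧ G.Adj (p i') w := by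
    by_cases h4 : i + 4 ≤ m
    · exact ⟨i, h4, hwi⟩
    · have hi4 : i = m - 3 := by omega
      obtain ⟨z, hz, hz2⟩ := exists_other (G := G) (v := w) (by omega) (p (m - 3))
      by_cases hzP : ∃ j, j < m ∧ z = p j
      · obtain ⟨j, hj, rfl⟩ := hzP
        have hj1 : j ≠ m - 1 := fun h => by
          rw [h] at hz
          exact hw (m - 2) (by omega) (hdx w hz.symm).symm
        have hj2 : j ≠ m - 2 := fun h => by
          rw [h] at hz
          exact stepA w hw hz.symm
        have hj3 : j ≠ m - 3 := fun h => hz2 (by rw [h])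
        exact ⟨j, by omega, hz.symm⟩
      · push Not at hzP
        exfalso
        have hzw : z ≠ w := hz.ne'
        have hP : Path G (fun t => if t < m - 2 then p t else if t = m - 2 then w else z) m := by
          refine ⟨fun a ha b hb hab => ?_, fun a ha => ?_⟩
          · dsimp only at hab
            split_ifs at hab with h1 h2 h3 h4 h5 h6 h7 h8
            · exact hinj _ ha _ hb hab
            · exact absurd hab (hw _ ha)
            · exact absurd hab.symm (hzP _ ha)
            · exact absurd hab.symm (hw _ hb)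
            · omega
            · exact absurd hab.symm hzw
            · exact absurd hab (hzP _ hb)
            · exact absurd hab hzw
            · omega
          · try dsimp only
            by_cases h1 : a + 1 < m - 2
            · rw [if_pos h1, if_pos (by omega)]
              exact hadj a ha
            · rw [if_neg h1]
              by_cases h2 : a + 1 = m - 2
              · rw [if_pos h2, if_pos (by omega)]
                have : a = i := by omega
                rw [this]; exact hwi
              · rw [if_neg h2, if_neg (by omega), if_pos (by omega)]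
                exact hz
        have hLP : Longest G (fun t => if t < m - 2 then p t else if t = m - 2 then w else z) m :=
          ⟨hP, hL.2⟩
        refine c2 (w := p (m - 2)) (i := m - 3) hLP hk hq (fun j hj => ?_) (by omega) ?_ ?_ ?_
        · try dsimp only
          split_ifs with h1 h2
          · intro h
            have := hinj _ hj _ (by omega) h
            omega
          · exact fun h => hw (m - 2) (by omega) h.symm
          · exact hzP (m - 2) (by omega)
        · try dsimp only
          rw [if_pos (by omega)]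
          have := hadj (m - 3) (by omega)
          have h2 : m - 3 + 1 = m - 2 := by omega
          rwa [h2] at this
        · try dsimp only
          rw [if_pos (by omega)]; exact hd0
        · try dsimp only
          rw [if_neg (by omega), if_neg (by omega)]
          exact hd _ _ hz.symm (hzP (m - 1) (by omega))
  obtain ⟨A, r, hA, hcard⟩ := c0 (G := G) (p := p) (m := m - 1) (hL.1.pre (by omega)) (w := w)
    (i := i') (b := b)
    (by
      intro u hu
      obtain ⟨j, hj, rfl⟩ := hL.head hu
      have hj0 : j ≠ 0 := fun h => by rw [h] at hu; exact G.loopless.irrefl _ hu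
      have hj1 : j ≠ m - 1 := fun h => by
        rw [h] at hu
        have := hinj 0 (by omega) (m - 2) (by omega) (hdx _ hu.symm)
        omega
      have hj2 : j ≠ m - 2 := fun h => by rw [h] at hu; exact stepD hu
      exact ⟨j, by omega, by omega, rfl⟩)
    (fun j hj => hw j (by omega)) (by omega) hwi'
    (by
      rw [or_iff_not_imp_left]
      intro _ h
      exact hL.two hw (by omega) hwi' h)
    (by omega) (by rw [hm2]; exact hu.symm)
    (by
      rw [or_iff_not_imp_left]
      intro _ h
      obtain ⟨c, hc, hcl', hc1, hc2⟩ := crossing (hL.1.pre (m' := m - 1) (by omega)) (b := b)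
        (by omega) (by rw [hm2]; exact hu.symm) h
      exact stepC c hc hcl' hc1 hc2)
  have := hq A r hA
  omega

end cases

/-! ### The main induction -/

theorem exists_longest [Fintype V] [Nonempty V] (G : SimpleGraph V) : ∃ p m, Longest G p m := by
  classical
  have hbd : ∀ m, (∃ p, Path G p m) → m ≤ Fintype.card V := by
    rintro m ⟨p, hp⟩
    have hinj : Function.Injective (fun i : Fin m => p i) := by
      intro a b hab
      exact Fin.ext (hp.1 _ a.2 _ b.2 hab)
    simpa using Fintype.card_le_of_injective _ hinj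
  have hne : {m | ∃ p, Path G p m}.Nonempty :=
    ⟨0, fun _ => Classical.arbitrary V, fun i hi => by omega, fun i hi => by omega⟩
  have hB : BddAbove {m | ∃ p, Path G p m} := ⟨_, fun m hm => hbd m hm⟩
  obtain ⟨p, hp⟩ := Nat.sSup_mem hne hB
  exact ⟨p, _, hp, fun q m' hq => le_csSup hB ⟨q, hq⟩⟩

theorem leave {G : SimpleGraph V} {p : ℕ → V} {m : ℕ} (hm : 0 < m) {z : V}
    (hz : ∀ j, j < m → p j ≠ z) (hr : Relation.ReflTransGen G.Adj (p 0) z) :
    ∃ i w, i < m ∧ G.Adj (p i) w ∧ ∀ j, j < m → p j ≠ w := by
  by_contra hcon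
  push Not at hcon
  have : ∀ y, Relation.ReflTransGen G.Adj (p 0) y → ∃ j, j < m ∧ p j = y := by
    intro y hy
    induction hy with
    | refl => exact ⟨0, hm, rfl⟩
    | @tail b c _ hbc hb =>
      obtain ⟨j, hj, rfl⟩ := hb
      exact hcon j c hj hbc
  obtain ⟨j, hj, hj'⟩ := this z hr
  exact hz j hj hj'

theorem mainInd [Fintype V] (k : ℕ) (hk : 2 ≤ k) : ∀ (n : ℕ) (G : SimpleGraph V),
    {v | ∃ u, G.Adj v u}.ncard = n → (∃ a b, G.Adj a b) →
    (∀ u v, (∃ a, G.Adj u a) → (∃ b, G.Adj v b) → Relation.ReflTransGen G.Adj u v) →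
    (∃ x0, ∀ v u, G.Adj v u → v ≠ x0 → k ≤ deg G v) →
    (∀ A r, Conn G A r → (bd G A).card ≤ k + 1) →
    ∃ p m, Path G p m ∧ ∀ v, (∃ u, G.Adj v u) → ∃ i, i < m ∧ p i = v := by
  intro n
  induction n using Nat.strong_induction_on with
  | _ n ih =>
  intro G hn hne hc hd hq
  obtain ⟨a0, b0, hab⟩ := hne
  have : Nonempty V := ⟨a0⟩
  obtain ⟨p, m, hL⟩ := exists_longest G
  have hm2 : 2 ≤ m := by
    refine hL.2 (fun t => if t = 0 then a0 else b0) 2 ⟨fun i hi j hj hij => ?_, fun i hi => ?_⟩
    · dsimp only at hij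
      split_ifs at hij with h1 h2 h2
      · omega
      · exact absurd hij hab.ne
      · exact absurd hij hab.ne'
      · omega
    · have : i = 0 := by omega
      subst this
      simpa using hab
  by_cases hcov : ∀ v, (∃ u, G.Adj v u) → ∃ i, i < m ∧ p i = v
  · exact ⟨p, m, hL.1, hcov⟩
  push Not at hcov
  obtain ⟨z, ⟨uz, huz⟩, hz⟩ := hcov
  have hadj0 : G.Adj (p 0) (p 1) := hL.1.2 0 (by omega)
  have hadjl : G.Adj (p (m - 1)) (p (m - 2)) := by
    have := hL.1.2 (m - 2) (by omega)
    have h2 : m - 2 + 1 = m - 1 := by omega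
    rw [h2] at this; exact this.symm
  obtain ⟨i, w, hi, hwi, hw⟩ := leave (G := G) (p := p) (m := m) (by omega) hz
    (hc _ _ ⟨_, hadj0⟩ ⟨_, huz⟩)
  obtain ⟨x0, hx0⟩ := hd
  -- a longest path ending at the exceptional vertex
  obtain ⟨p, i, hL, hw, hi, hwi, hpx⟩ : ∃ (p : ℕ → V) (i : ℕ), Longest G p m ∧
      (∀ j, j < m → p j ≠ w) ∧ i < m ∧ G.Adj (p i) w ∧ p (m - 1) = x0 := by
    by_cases h1 : p (m - 1) = x0
    · exact ⟨p, i, hL, hw, hi, hwi, h1⟩
    by_cases h2 : p 0 = x0
    · refine ⟨fun t => p (m - 1 - t), m - 1 - i, hL.rev, fun j hj => hw _ (by omega), by omega,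
        ?_, ?_⟩
      · have : m - 1 - (m - 1 - i) = i := by omega
        dsimp only
        rw [this]; exact hwi
      · have : m - 1 - (m - 1) = 0 := by omega
        dsimp only
        rw [this]; exact h2
    · exact (c2 hL hk hq hw hi hwi (hx0 _ _ hadj0 h2) (hx0 _ _ hadjl h1)).elim
  subst hpx
  obtain ⟨hm3, hx, hy⟩ := c3 hL hk hq hx0 hw hi hwi
  clear hadj0 hadjl
  set x := p (m - 1) with hxdef
  set y := p (m - 2) with hydef
  set z0 := p (m - 3) with hz0def
  have hxy : G.Adj x y := by
    have := hL.1.2 (m - 2) (by omega)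
    have h2 : m - 2 + 1 = m - 1 := by omega
    rw [h2] at this; exact this.symm
  have hyz : G.Adj y z0 := by
    have := hL.1.2 (m - 3) (by omega)
    have h2 : m - 3 + 1 = m - 2 := by omega
    rw [h2] at this; exact this.symm
  have hz0x : z0 ≠ x := fun h => by
    have := hL.1.1 (m - 3) (by omega) (m - 1) (by omega) h
    omega
  let G' : SimpleGraph V :=
    { Adj := fun a b => G.Adj a b ∧ a ≠ x ∧ b ≠ x
      symm := ⟨fun a b h => ⟨h.1.symm, h.2.2, h.2.1⟩⟩
      loopless := ⟨fun a h => G.loopless.irrefl a h.1⟩ }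
  have hG' : ∀ a b, G'.Adj a b ↔ G.Adj a b ∧ a ≠ x ∧ b ≠ x := fun a b => Iff.rfl
  have hyz' : G'.Adj y z0 := ⟨hyz, hxy.ne', hz0x⟩
  have hlt : {v | ∃ u, G'.Adj v u}.ncard < n := by
    rw [← hn]
    refine Set.ncard_lt_ncard ⟨fun v hv => ?_, fun hsub => ?_⟩ (Set.toFinite _)
    · obtain ⟨u, hu⟩ := hv
      exact ⟨u, hu.1⟩
    · obtain ⟨u, hu⟩ := hsub (show x ∈ {v | ∃ u, G.Adj v u} from ⟨y, hxy⟩)
      exact hu.2.1 rfl
  obtain ⟨q, m', hq', hcov'⟩ := ih _ hlt G' rfl ⟨y, z0, hyz'⟩
    (by
      rintro u v ⟨a, ha⟩ ⟨b, hb⟩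
      classical
      have h1 : Relation.ReflTransGen G.Adj u v := hc _ _ ⟨a, ha.1⟩ ⟨b, hb.1⟩
      have hstep : ∀ c d, G.Adj c d → Relation.ReflTransGen G'.Adj (if c = x then y else c)
          (if d = x then y else d) := by
        intro c d hcd
        by_cases h3 : c = x
        · have h4 : d = y := hx d (by rw [← h3]; exact hcd)
          have h5 : d ≠ x := by rw [h4]; exact hxy.ne'
          rw [if_pos h3, if_neg h5, h4]
        · by_cases h6 : d = x
          · have h4 : c = y := hx c (by rw [← h6]; exact hcd.symm)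
            rw [if_pos h6, if_neg h3, h4]
          · rw [if_neg h3, if_neg h6]
            exact Relation.ReflTransGen.single ⟨hcd, h3, h6⟩
      have h2 : Relation.ReflTransGen G'.Adj (if u = x then y else u) (if v = x then y else v) := by
        clear hb
        induction h1 with
        | refl => exact Relation.ReflTransGen.refl
        | @tail c d _ hcd ih2 => exact ih2.trans (hstep c d hcd)
      simpa only [if_neg ha.2.1, if_neg hb.2.1] using h2)
    ⟨y, by
      intro v u hvu hvy
      have h1 := hx0 v u hvu.1 hvu.2.1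
      have h2 : {t | G'.Adj v t} = {t | G.Adj v t} := by
        ext t
        simp only [Set.mem_ofPred_eq]
        refine ⟨fun h => h.1, fun h => ⟨h, hvu.2.1, ?_⟩⟩
        rintro rfl
        exact hvy (hx v h.symm)
      unfold deg at h1 ⊢
      rw [h2]; exact h1⟩
    (by
      intro A r hA
      refine le_trans (card_le_card ?_) (hq A r ⟨hA.1, fun a ha => ?_⟩)
      · intro v hv
        rw [mem_bd] at hv ⊢
        obtain ⟨h1, a, ha, h2⟩ := hv
        exact ⟨h1, a, ha, h2.1⟩
      · refine Relation.ReflTransGen.mono ?_ _ _ (hA.2 a ha)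
        rintro s t ⟨h1, h2, h3⟩
        exact ⟨h1.1, h2, h3⟩)
  -- the path of `G'` has `y` as an end
  obtain ⟨s, hs, hsy⟩ := hcov' y ⟨z0, hyz'⟩
  obtain ⟨s2, hs2, hsz⟩ := hcov' z0 ⟨y, hyz'.symm⟩
  have hss : s ≠ s2 := fun h => hyz.ne (by rw [← hsy, ← hsz, h])
  have hqx : ∀ j, j < m' → q j ≠ x := by
    intro j hj
    by_cases h : j + 1 < m'
    · exact (hq'.2 j h).2.1
    · have h1 := (hq'.2 (j - 1) (by omega)).2.2
      have h2 : j - 1 + 1 = j := by omega
      rwa [h2] at h1
  have hends : s = 0 ∨ s = m' - 1 := by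
    by_contra hcon
    rw [not_or] at hcon
    have h1 := hq'.2 s (by omega)
    have h2 := hq'.2 (s - 1) (by omega)
    have h3 : s - 1 + 1 = s := by omega
    rw [h3] at h2
    rw [hsy] at h1 h2
    have h4 : q (s + 1) = z0 := (hy _ h1.1).resolve_right h1.2.2
    have h5 : q (s - 1) = z0 := (hy _ h2.1.symm).resolve_right h2.2.1
    have := hq'.1 (s + 1) (by omega) (s - 1) (by omega) (by rw [h4, h5])
    omega
  have hcovG : ∀ v, v ≠ x → (∃ u, G.Adj v u) → ∃ i, i < m' ∧ q i = v := by
    rintro v hvx ⟨u, hu⟩
    by_cases hux : u = x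
    · have : v = y := hx v (by rw [← hux]; exact hu.symm)
      exact ⟨s, hs, by rw [hsy, this]⟩
    · exact hcov' v ⟨u, hu, hvx, hux⟩
  obtain ⟨q, hq', hq0, hqx, hcovG⟩ : ∃ q : ℕ → V, Path G' q m' ∧ q 0 = y ∧
      (∀ j, j < m' → q j ≠ x) ∧ ∀ v, v ≠ x → (∃ u, G.Adj v u) → ∃ i, i < m' ∧ q i = v := by
    rcases hends with h | h
    · exact ⟨q, hq', by rw [← hsy, h], hqx, hcovG⟩
    · refine ⟨fun t => q (m' - 1 - t), hq'.rev, ?_, fun j hj => hqx _ (by omega), ?_⟩
      · have : m' - 1 - 0 = s := by omega
        dsimp only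
        rw [this, hsy]
      · intro v hv hu
        obtain ⟨i, hi, hi'⟩ := hcovG v hv hu
        refine ⟨m' - 1 - i, by omega, ?_⟩
        have : m' - 1 - (m' - 1 - i) = i := by omega
        dsimp only
        rw [this, hi']
  refine ⟨fun t => if t = 0 then x else q (t - 1), m' + 1, ⟨fun a ha b hb hab => ?_,
    fun a ha => ?_⟩, ?_⟩
  · dsimp only at hab
    split_ifs at hab with h1 h2 h2
    · omega
    · exact absurd hab.symm (hqx _ (by omega))
    · exact absurd hab (hqx _ (by omega))
    · have := hq'.1 _ (by omega) _ (by omega) hab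
      omega
  · dsimp only
    rw [if_neg (by omega : ¬ a + 1 = 0)]
    split_ifs with h1
    · subst h1
      have : 0 + 1 - 1 = 0 := by omega
      rw [this, hq0]; exact hxy
    · have := hq'.2 (a - 1) (by omega)
      have h2 : a - 1 + 1 = a + 1 - 1 := by omega
      rw [h2] at this
      exact this.1
  · intro v hv
    by_cases hvx : v = x
    · exact ⟨0, by omega, by simp [hvx]⟩
    · obtain ⟨i, hi, hi'⟩ := hcovG v hvx hv
      exact ⟨i + 1, by omega, by simpa using hi'⟩

/-- At most one vertex has degree smaller than the second smallest degree. -/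
theorem secondMin_spec [Fintype V] [Nonempty V] (G : SimpleGraph V) :
    ∃ x0, ∀ v, v ≠ x0 → secondMinDegree G ≤ deg G v := by
  classical
  set l := ((univ : Finset V).val.map (deg G)).sort (· ≤ ·) with hl
  set d := l.getD 1 0 with hdd
  have hd : secondMinDegree G = d := rfl
  have hcount : l.countP (fun t => t < d) ≤ 1 := by
    have hsorted : l.Pairwise (· ≤ ·) := Multiset.pairwise_sort _ _
    match hlm : l with
    | [] => simp
    | [a] => exact le_trans List.countP_le_length (by simp)
    | a :: b :: t =>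
      have hdb : d = b := by rw [hdd]; rfl
      rw [List.pairwise_cons, List.pairwise_cons] at hsorted
      have h0 : (b :: t).countP (fun t => t < d) = 0 := by
        rw [List.countP_eq_zero]
        intro c hc
        rw [hdb]
        rcases List.mem_cons.1 hc with rfl | hc
        · simp
        · have := hsorted.2.1 c hc
          simp; omega
      rw [List.countP_cons, h0]
      split_ifs <;> simp
  have hcard : ((univ : Finset V).filter fun v => deg G v < d).card ≤ 1 := by
    have h1 : ((univ : Finset V).filter fun v => deg G v < d).card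
        = Multiset.countP (fun t => t < d) ((univ : Finset V).val.map (deg G)) := by
      rw [Multiset.countP_map]
      rfl
    have h2 : ((univ : Finset V).val.map (deg G)) = (l : Multiset ℕ) := by
      rw [hl, Multiset.sort_eq]
    rw [h1, h2, Multiset.coe_countP]
    exact hcount
  rw [card_le_one] at hcard
  by_cases hex : ∃ x, deg G x < d
  · obtain ⟨x, hx⟩ := hex
    refine ⟨x, fun v hv => ?_⟩
    rw [hd]
    by_contra hlt
    push Not at hlt
    exact hv (hcard v (by simpa using hlt) x (by simpa using hx))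
  · push Not at hex
    exact ⟨Classical.arbitrary V, fun v _ => by rw [hd]; exact hex v⟩

/-- **Main theorem.** Every connected finite graph with at least two vertices whose leaf number is
at most its second smallest degree plus one has a Hamiltonian path. -/
theorem result : ∀ (V : Type u) [Fintype V] (G : SimpleGraph V), G.Connected →
    2 ≤ Fintype.card V → leafNumber G ≤ secondMinDegree G + 1 → ∃ l : List V, IsHamPath G l := by
  intro V _ G hG hV hleaf
  classical
  have hne : Nonempty V := hG.nonempty
  have hq : ∀ A r, Conn G A r → (bd G A).card ≤ secondMinDegree G + 1 :=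
    fun A r hA => le_trans (bd_le_leafNumber G hG hV A r hA) hleaf
  obtain ⟨x0, hx0⟩ := secondMin_spec G
  have hnt : Nontrivial V := Fintype.one_lt_card_iff_nontrivial.1 hV
  have hreach : ∀ u v, Relation.ReflTransGen G.Adj u v := by
    intro u v
    have := hG.preconnected u v
    rwa [SimpleGraph.reachable_iff_reflTransGen] at this
  have hnon : ∀ v, ∃ u, G.Adj v u := by
    intro v
    obtain ⟨u, hu⟩ := exists_ne v
    rcases Relation.ReflTransGen.cases_head (hreach v u) with h | ⟨c, hc, _⟩
    · exact absurd h.symm hu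
    · exact ⟨c, hc⟩
  have hpath : ∃ p m, Path G p m ∧ ∀ v, ∃ i, i < m ∧ p i = v := by
    by_cases hk : 2 ≤ secondMinDegree G
    · obtain ⟨v0⟩ := hne
      obtain ⟨u0, hu0⟩ := hnon v0
      obtain ⟨p, m, hp, hcov⟩ := mainInd (secondMinDegree G) hk _ G rfl ⟨v0, u0, hu0⟩
        (fun u v _ _ => hreach u v) ⟨x0, fun v _ _ h => hx0 v h⟩ hq
      exact ⟨p, m, hp, fun v => hcov v (hnon v)⟩
    · obtain ⟨p, m, hL⟩ := exists_longest G
      refine ⟨p, m, hL.1, ?_⟩
      by_contra hcon
      push Not at hcon
      obtain ⟨z, hz⟩ := hcon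
      have hm : 0 < m := by
        refine Nat.lt_of_lt_of_le one_pos (hL.2 (fun _ => z) 1 ⟨fun i hi j hj _ => by omega,
          fun i hi => by omega⟩)
      obtain ⟨i, w, hi, hwi, hw⟩ := leave (G := G) (p := p) (m := m) hm hz (hreach _ _)
      have hi0 : i ≠ 0 := by
        rintro rfl
        obtain ⟨j, hj, hj'⟩ := hL.head hwi
        exact hw j hj hj'.symm
      have hi1 : i ≠ m - 1 := by
        rintro rfl
        obtain ⟨j, hj, hj'⟩ := hL.last (by omega) hwi
        exact hw j hj hj'.symm
      have h1 : G.Adj (p i) (p (i + 1)) := hL.1.2 i (by omega)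
      have h2 : G.Adj (p (i - 1)) (p i) := by
        have := hL.1.2 (i - 1) (by omega)
        have h2 : i - 1 + 1 = i := by omega
        rwa [h2] at this
      have hA : Conn G {p i} (p i) := by
        refine ⟨mem_singleton_self _, fun a ha => ?_⟩
        rw [mem_singleton] at ha
        rw [ha]
      have hsub : ({p (i - 1), p (i + 1), w} : Finset V) ⊆ bd G {p i} := by
        intro v hv
        rw [mem_bd]
        simp only [mem_insert, mem_singleton] at hv
        rcases hv with rfl | rfl | rfl
        · exact ⟨by simpa using h2.ne, p i, mem_singleton_self _, h2.symm⟩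
        · exact ⟨by simpa using h1.ne', p i, mem_singleton_self _, h1⟩
        · exact ⟨by simpa using hwi.ne', p i, mem_singleton_self _, hwi⟩
      have h3 := card_le_card hsub
      have h4 : ({p (i - 1), p (i + 1), w} : Finset V).card = 3 := by
        rw [card_eq_three]
        refine ⟨_, _, _, ?_, ?_, ?_, rfl⟩
        · intro h
          have := hL.1.1 _ (by omega) _ (by omega) h
          omega
        · exact hw _ (by omega)
        · exact hw _ (by omega)
      have h5 := hq _ _ hA
      omega
  obtain ⟨p, m, hp, hcov⟩ := hpath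
  refine ⟨(List.range m).map p, ?_, ?_, ?_⟩
  · refine List.Nodup.map_on ?_ List.nodup_range
    intro a ha b hb hab
    exact hp.1 a (List.mem_range.1 ha) b (List.mem_range.1 hb) hab
  · rw [List.isChain_iff_getElem]
    intro i hi
    simp only [List.length_map, List.length_range] at hi
    simp only [List.getElem_map, List.getElem_range]
    exact hp.2 i hi
  · intro v
    obtain ⟨i, hi, rfl⟩ := hcov v
    exact List.mem_map.2 ⟨i, List.mem_range.2 hi, rfl⟩

end Pool.Agent.Results.MP_95a718_co.TraceableLeaf
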